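import Mathlib

/-!
# The small-subsets ballean of a group of singular cardinality is not normal
-/

open Cardinal Set Pointwise Order

namespace Q184.Small
universe u

theorem mk_closure_lt {G : Type u} [Group G] {κ : Cardinal.{u}} (hκ : ℵ₀ < κ) {S : Set G}
    (hS : #S < κ) : #(Subgroup.closure S) < κ := by
  have h0 : #(insert (1 : G) S : Set G) < κ :=
    lt_of_le_of_lt mk_insert_le (add_lt_of_lt hκ.le hS (one_lt_aleph0.trans hκ))
  have : Nonempty (insert (1 : G) S : Set G) := ⟨⟨1, mem_insert _ _⟩⟩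
  have h1 : #(Subgroup.closure S) ≤ #(Subgroup.closure (insert (1 : G) S : Set G)) :=
    mk_le_mk_of_subset (Subgroup.closure_mono (subset_insert _ _))
  refine lt_of_le_of_lt h1 ?_
  have h2 : #(Subgroup.closure (insert (1 : G) S : Set G)) ≤
      #(FreeGroup (insert (1 : G) S : Set G)) := by
    rw [FreeGroup.closure_eq_range]
    exact mk_range_le
  refine lt_of_le_of_lt h2 ?_
  rw [mk_freeGroup]
  exact max_lt h0 hκ

theorem exists_seq {G : Type u} [Group G] {I : Type u} [LinearOrder I] [WellFoundedLT I]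
    (hκ : ℵ₀ < #G) (hI : ∀ i : I, #(Iio i) < #G) (g : I → G) (T : I → Set G)
    (hT : ∀ i, #(T i) < #G) :
    ∃ p : I → G, ∀ i,
      p i ∉ Subgroup.closure (T i ∪ p '' Iio i ∪ (fun j => p j * g j) '' Iio i) := by
  classical
  let step : ∀ i : I, (∀ j, j < i → G) → G := fun i f =>
    Classical.epsilon (fun x => x ∉ Subgroup.closure
      (T i ∪ {y | ∃ j, ∃ h : j < i, f j h = y} ∪ {y | ∃ j, ∃ h : j < i, f j h * g j = y}))
  let p : I → G := WellFounded.fix (wellFounded_lt (α := I)) step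
  have hp : ∀ i, p i = step i (fun j _ => p j) := fun i => WellFounded.fix_eq _ _ _
  refine ⟨p, fun i => ?_⟩
  have hset : T i ∪ p '' Iio i ∪ (fun j => p j * g j) '' Iio i =
      T i ∪ {y | ∃ j, ∃ _ : j < i, p j = y} ∪ {y | ∃ j, ∃ _ : j < i, p j * g j = y} := by
    ext y
    simp only [mem_union, mem_image, mem_Iio, mem_setOf_eq, exists_prop]
  have hcard : #(Subgroup.closure (T i ∪ p '' Iio i ∪ (fun j => p j * g j) '' Iio i)) < #G := by
    apply mk_closure_lt hκ
    refine lt_of_le_of_lt (mk_union_le _ _) (add_lt_of_lt hκ.le ?_ ?_)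
    · refine lt_of_le_of_lt (mk_union_le _ _) (add_lt_of_lt hκ.le (hT i) ?_)
      exact lt_of_le_of_lt mk_image_le (hI i)
    · exact lt_of_le_of_lt mk_image_le (hI i)
  have hex : ∃ x, x ∉ Subgroup.closure
      (T i ∪ {y | ∃ j, ∃ _ : j < i, p j = y} ∪ {y | ∃ j, ∃ _ : j < i, p j * g j = y}) := by
    rw [← hset]
    by_contra hcon
    push Not at hcon
    have htop : Subgroup.closure (T i ∪ p '' Iio i ∪ (fun j => p j * g j) '' Iio i) = ⊤ :=
      (Subgroup.eq_top_iff' _).mpr hcon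
    rw [htop, (Subgroup.topEquiv (G := G)).toEquiv.cardinal_eq] at hcard
    exact lt_irrefl _ hcard
  have h := Classical.epsilon_spec hex
  rw [hset, hp i]
  exact h

theorem max4 {I : Type u} [LinearOrder I] {a b c d : I} (ab : a ≠ b) (ac : a ≠ c) (ad : a ≠ d)
    (bc : b ≠ c) (bd : b ≠ d) (cd : c ≠ d) :
    (b < a ∧ c < a ∧ d < a) ∨ (a < b ∧ c < b ∧ d < b) ∨ (a < c ∧ b < c ∧ d < c) ∨
      (a < d ∧ b < d ∧ c < d) := by
  rcases lt_or_gt_of_ne ab with h1 | h1 <;> rcases lt_or_gt_of_ne cd with h2 | h2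
  · rcases lt_or_gt_of_ne bd with h3 | h3
    · exact Or.inr (Or.inr (Or.inr ⟨h1.trans h3, h3, h2⟩))
    · exact Or.inr (Or.inl ⟨h1, h2.trans h3, h3⟩)
  · rcases lt_or_gt_of_ne bc with h3 | h3
    · exact Or.inr (Or.inr (Or.inl ⟨h1.trans h3, h3, h2⟩))
    · exact Or.inr (Or.inl ⟨h1, h3, h2.trans h3⟩)
  · rcases lt_or_gt_of_ne ad with h3 | h3
    · exact Or.inr (Or.inr (Or.inr ⟨h3, h1.trans h3, h2⟩))
    · exact Or.inl ⟨h1, h2.trans h3, h3⟩
  · rcases lt_or_gt_of_ne ac with h3 | h3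
    · exact Or.inr (Or.inr (Or.inl ⟨h3, h1.trans h3, h2⟩))
    · exact Or.inl ⟨h1, h3, h2.trans h3⟩

/-- the combinatorial data -/
theorem key {G : Type u} [Group G] [Infinite G] (hsing : ¬ (#G).IsRegular) :
    ∃ P Q : Set G,
      (∀ g : G, {y | y ∈ Q ∧ ∃ x ∈ P, x * g = y}.Countable) ∧
      (∀ ν < #G, ∃ μ : Cardinal.{u}, ν ≤ μ ∧ ℵ₀ ≤ μ ∧ ∃ K : Set G, #K = succ (succ μ) ∧
        (∀ x, #{k | k ∈ K ∧ ∃ r ∈ P, r * k = x} ≤ μ) ∧
        (∀ x, #{k | k ∈ K ∧ ∃ r ∈ Q, r * k = x} ≤ μ)) ∧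
      (∀ g, ∃ x ∈ P, x * g ∈ Q) ∧
      (∀ c : G → Cardinal.{u}, (∀ A : Set G, #A < #G → ∃ d < #G, ∀ g ∈ A, c g ≤ d) →
        ∃ d < #G, ∀ g, c g ≤ d) := by
  classical
  have hinf : ℵ₀ ≤ #G := aleph0_le_mk G
  have hκ : ℵ₀ < #G := by
    refine lt_of_le_of_ne hinf (fun h => hsing ?_)
    rw [← h]
    exact isRegular_aleph0
  have hcof : (#G).ord.cof < #G := by
    by_contra h
    push Not at h
    exact hsing ⟨hinf, h⟩
  -- the index set
  let I : Type u := (#G).ord.ToType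
  have hIcard : #I = #G := by simp [I]
  have hI : ∀ i : I, #(Iio i) < #G := by
    intro i
    have h := mk_Iio_lt i (by rw [hIcard]; simp [I])
    rwa [hIcard] at h
  obtain ⟨S, hScof, hScard⟩ := Order.cof_eq I
  have hS : #S < #G := by
    rw [hScard]
    change Order.cof ((#G).ord.ToType) < #G
    rw [Ordinal.cof_toType]
    exact hcof
  have hA : ∀ ν < #G, ∃ j ∈ S, ν ≤ #(Iio j) := by
    intro ν hν
    have h1 : ν.ord < Ordinal.type (α := I) (· < ·) := by
      change _ < Ordinal.type (α := (#G).ord.ToType) (· < ·)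
      rw [Ordinal.type_toType]
      exact ord_lt_ord.mpr hν
    obtain ⟨i, hi⟩ : ∃ i : I, Ordinal.typein (α := I) (· < ·) i = ν.ord :=
      ⟨Ordinal.enum (α := I) (· < ·) ⟨ν.ord, h1⟩, Ordinal.typein_enum _ _⟩
    obtain ⟨j, hjS, hij⟩ := hScof i
    refine ⟨j, hjS, ?_⟩
    have h2 : #(Iio i) = ν := by
      have h3 := congrArg Ordinal.card hi
      rw [card_ord] at h3
      exact h3
    rw [← h2]
    exact mk_le_mk_of_subset (Iio_subset_Iio hij)
  obtain ⟨e⟩ : Nonempty (I ≃ G) := Cardinal.eq.mp hIcard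
  -- the cardinals
  let μ : I → Cardinal.{u} := fun j => max ℵ₀ #(Iio j)
  have hμlt : ∀ j, μ j < #G := fun j => max_lt hκ (hI j)
  have hlim : ∀ ν < #G, succ ν < #G := by
    intro ν hν
    rcases (succ_le_of_lt hν).lt_or_eq with h | h
    · exact h
    · exfalso
      apply hsing
      rcases le_or_gt ℵ₀ ν with h1 | h1
      · rw [← h]
        exact isRegular_succ h1
      · exact absurd (h ▸ hκ) (not_lt.mpr (succ_le_of_lt h1))
  have hsets : ∀ j : I, ∃ K : Set G, #K = succ (succ (μ j)) := fun j =>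
    le_mk_iff_exists_set.mp (hlim _ (hlim _ (hμlt j))).le
  choose F hF using hsets
  let T : I → Set G := fun i => {e i} ∪ ⋃ j : {j : I // j ∈ S ∧ j ≤ i}, F j.1
  have hT : ∀ i, #(T i) < #G := by
    intro i
    refine lt_of_le_of_lt (mk_union_le _ _) (add_lt_of_lt hκ.le ?_ ?_)
    · rw [mk_singleton]
      exact one_lt_aleph0.trans hκ
    · refine lt_of_le_of_lt (mk_iUnion_le _) ?_
      have hs1 : #{j : I // j ∈ S ∧ j ≤ i} ≤ #S := mk_subtype_mono (fun j hj => hj.1)
      have hs2 : (⨆ j : {j : I // j ∈ S ∧ j ≤ i}, #(F j.1)) ≤ succ (succ (μ i)) := by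
        apply ciSup_le'
        rintro ⟨j, hj1, hj2⟩
        rw [hF]
        apply succ_le_succ
        apply succ_le_succ
        exact max_le_max le_rfl (mk_le_mk_of_subset (Iio_subset_Iio hj2))
      exact mul_lt_of_lt hκ.le (lt_of_le_of_lt hs1 hS)
        (lt_of_le_of_lt hs2 (hlim _ (hlim _ (hμlt i))))
  obtain ⟨p, hp⟩ := exists_seq hκ hI (fun i => e i) T hT
  set H : I → Subgroup G := fun i =>
    Subgroup.closure (T i ∪ p '' Iio i ∪ (fun j => p j * e j) '' Iio i) with hH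
  have hpH : ∀ i, p i ∉ H i := hp
  have hTe : ∀ i, e i ∈ H i := fun i =>
    Subgroup.subset_closure (Or.inl (Or.inl (Or.inl rfl)))
  have hFH : ∀ i j, j ∈ S → j ≤ i → ∀ k ∈ F j, k ∈ H i := by
    intro i j hj hji k hk
    refine Subgroup.subset_closure (Or.inl (Or.inl (Or.inr ?_)))
    exact mem_iUnion.mpr ⟨⟨j, hj, hji⟩, hk⟩
  have hpp : ∀ i j, j < i → p j ∈ H i := fun i j hji =>
    Subgroup.subset_closure (Or.inl (Or.inr ⟨j, hji, rfl⟩))
  have hqq : ∀ i j, j < i → p j * e j ∈ H i := fun i j hji =>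
    Subgroup.subset_closure (Or.inr ⟨j, hji, rfl⟩)
  have hqH : ∀ i, p i * e i ∉ H i := fun i h =>
    hpH i (by
      have := (H i).mul_mem h ((H i).inv_mem (hTe i))
      rwa [mul_inv_cancel_right] at this)
  have hpinj : Function.Injective p := by
    intro i j hij
    rcases lt_trichotomy i j with h | h | h
    · exact absurd (hij ▸ hpp j i h) (hpH j)
    · exact h
    · exact absurd (hij ▸ hpp i j h) (hpH i)
  have hqinj : Function.Injective (fun i => p i * e i) := by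
    intro i j hij
    have hij' : p i * e i = p j * e j := hij
    rcases lt_trichotomy i j with h | h | h
    · exact absurd (hij' ▸ hqq j i h) (hqH j)
    · exact h
    · exact absurd (hij' ▸ hqq i j h) (hqH i)
  refine ⟨range p, range (fun i => p i * e i), ?_, ?_, ?_, ?_⟩
  · -- countability
    intro g
    set R : Set (I × I) := {x | p x.1 * g = p x.2 * e x.2} with hR
    have himg : {y | y ∈ range (fun i => p i * e i) ∧ ∃ x ∈ range p, x * g = y} ⊆
        (fun x : I × I => p x.2 * e x.2) '' R := by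
      rintro y ⟨⟨j, rfl⟩, x, ⟨i, rfl⟩, hx⟩
      exact ⟨(i, j), hx, rfl⟩
    refine Countable.mono himg (Countable.image ?_ _)
    have hfst : ∀ a : I, {x ∈ R | x.1 = a}.Subsingleton := by
      rintro a ⟨i, j⟩ ⟨h1, h2⟩ ⟨i', j'⟩ ⟨h3, h4⟩
      simp only [hR, mem_setOf_eq] at h1 h2 h3 h4
      subst h2
      subst h4
      have : j = j' := hqinj (h1.symm.trans h3)
      rw [this]
    have hsnd : ∀ a : I, {x ∈ R | x.2 = a}.Subsingleton := by
      rintro a ⟨i, j⟩ ⟨h1, h2⟩ ⟨i', j'⟩ ⟨h3, h4⟩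
      simp only [hR, mem_setOf_eq] at h1 h2 h3 h4
      subst h2
      subst h4
      have : i = i' := hpinj (mul_right_cancel (h1.trans h3.symm))
      rw [this]
    have hdiag : {x ∈ R | x.1 = x.2}.Subsingleton := by
      rintro ⟨i, j⟩ ⟨h1, h2⟩ ⟨i', j'⟩ ⟨h3, h4⟩
      simp only [hR, mem_setOf_eq] at h1 h2 h3 h4
      subst h2
      subst h4
      have h5 : g = e i := mul_left_cancel h1
      have h6 : g = e i' := mul_left_cancel h3
      have : i = i' := e.injective (h5.symm.trans h6)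
      rw [this]
    -- a pair whose maximum is attained only once
    have hmax : ∀ i j i' j' : I, (i, j) ∈ R → (i', j') ∈ R →
        (j < i → i' < i → j' < i → False) ∧ (i < j → i' < j → j' < j → False) := by
      intro i j i' j' h1 h2
      simp only [hR, mem_setOf_eq] at h1 h2
      have hg : g = (p i')⁻¹ * (p j' * e j') := by rw [← h2]; group
      constructor
      · intro a b c
        apply hpH i
        have : p i = (p j * e j) * ((p j' * e j')⁻¹ * p i') := by
          rw [← h1, hg]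
          group
        rw [this]
        exact (H i).mul_mem (hqq i j a) ((H i).mul_mem ((H i).inv_mem (hqq i j' c)) (hpp i i' b))
      · intro a b c
        apply hqH j
        have : p j * e j = p i * ((p i')⁻¹ * (p j' * e j')) := by
          rw [← h1, hg]
        rw [this]
        exact (H j).mul_mem (hpp j i a) ((H j).mul_mem ((H j).inv_mem (hpp j i' b)) (hqq j j' c))
    have htwo : ∀ i j i' j' : I, (i, j) ∈ R → (i', j') ∈ R → i ≠ j → i' ≠ j' → (i, j) ≠ (i', j') →
        i' = j ∨ j' = i := by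
      intro i j i' j' h1 h2 h3 h4 h5
      have h6 : i ≠ i' := by
        rintro rfl
        exact h5 (hfst i ⟨h1, rfl⟩ ⟨h2, rfl⟩)
      have h7 : j ≠ j' := by
        rintro rfl
        exact h5 (hsnd j ⟨h1, rfl⟩ ⟨h2, rfl⟩)
      by_contra hcon
      push Not at hcon
      obtain ⟨h8, h9⟩ := hcon
      obtain ⟨m1, m2⟩ := hmax i j i' j' h1 h2
      obtain ⟨m3, m4⟩ := hmax i' j' i j h2 h1
      rcases max4 h3 h6 (Ne.symm h9) (Ne.symm h8) h7 h4 with h | h | h | h
      · exact m1 h.1 h.2.1 h.2.2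
      · exact m2 h.1 h.2.1 h.2.2
      · exact m3 h.2.2 h.1 h.2.1
      · exact m4 h.2.2 h.1 h.2.1
    by_cases hnd : ∃ x ∈ R, x.1 ≠ x.2
    · obtain ⟨⟨i0, j0⟩, hx0, hx1⟩ := hnd
      have hsub : R ⊆ {x ∈ R | x.1 = x.2} ∪ ({(i0, j0)} ∪ ({x ∈ R | x.1 = j0} ∪
          {x ∈ R | x.2 = i0})) := by
        rintro ⟨i, j⟩ hx
        by_cases h1 : i = j
        · exact Or.inl ⟨hx, h1⟩
        · refine Or.inr ?_
          by_cases h2 : (i0, j0) = (i, j)
          · exact Or.inl h2.symm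
          · refine Or.inr ?_
            rcases htwo i0 j0 i j hx0 hx hx1 h1 h2 with h3 | h3
            · exact Or.inl ⟨hx, h3⟩
            · exact Or.inr ⟨hx, h3⟩
      refine Countable.mono hsub ?_
      exact hdiag.countable.union ((countable_singleton _).union
        ((hfst j0).countable.union (hsnd i0).countable))
    · push Not at hnd
      have hsub : R ⊆ {x ∈ R | x.1 = x.2} := fun x hx => ⟨hx, hnd x hx⟩
      exact Countable.mono hsub hdiag.countable
  · -- the blocks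
    intro ν hν
    obtain ⟨j, hjS, hj⟩ := hA ν hν
    refine ⟨μ j, hj.trans (le_max_right _ _), le_max_left _ _, F j, hF j, ?_, ?_⟩
    · intro x
      set W : Set I := {i | ∃ k ∈ F j, p i * k = x} with hW
      have h1 : #{k | k ∈ F j ∧ ∃ r ∈ range p, r * k = x} ≤ #W := by
        have hsub : {k | k ∈ F j ∧ ∃ r ∈ range p, r * k = x} ⊆ (fun i => (p i)⁻¹ * x) '' W := by
          rintro k ⟨hk, r, ⟨i, rfl⟩, hr⟩
          exact ⟨i, ⟨k, hk, hr⟩, by simp only; rw [← hr]; group⟩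
        exact (mk_le_mk_of_subset hsub).trans mk_image_le
      have h2 : (W ∩ Ici j).Subsingleton := by
        have haux : ∀ i i', i ∈ W → i' ∈ W → j ≤ i → i' < i → False := by
          rintro i i' ⟨k, hk, hk2⟩ ⟨k', hk', hk2'⟩ hji hii
          apply hpH i
          have : p i = p i' * (k' * k⁻¹) := by
            rw [← mul_assoc, hk2', ← hk2]
            group
          rw [this]
          exact (H i).mul_mem (hpp i i' hii) ((H i).mul_mem (hFH i j hjS hji k' hk')
            ((H i).inv_mem (hFH i j hjS hji k hk)))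
        rintro i ⟨hi1, hi2⟩ i' ⟨hi3, hi4⟩
        rcases lt_trichotomy i i' with h | h | h
        · exact (haux i' i hi3 hi1 hi4 h).elim
        · exact h
        · exact (haux i i' hi1 hi3 hi2 h).elim
      have h3 : W ⊆ Iio j ∪ (W ∩ Ici j) := by
        intro i hi
        rcases lt_or_ge i j with h | h
        · exact Or.inl h
        · exact Or.inr ⟨hi, h⟩
      calc #{k | k ∈ F j ∧ ∃ r ∈ range p, r * k = x} ≤ #W := h1
        _ ≤ #(Iio j ∪ (W ∩ Ici j) : Set I) := mk_le_mk_of_subset h3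
        _ ≤ #(Iio j) + #(W ∩ Ici j : Set I) := mk_union_le _ _
        _ ≤ μ j + μ j := by
            refine add_le_add (le_max_right _ _) ?_
            refine le_trans ?_ (le_max_left _ _)
            exact (mk_le_aleph0_iff.mpr h2.countable.to_subtype)
        _ = μ j := add_eq_self (le_max_left _ _)
    · intro x
      set W : Set I := {i | ∃ k ∈ F j, (p i * e i) * k = x} with hW
      have h1 : #{k | k ∈ F j ∧ ∃ r ∈ range (fun i => p i * e i), r * k = x} ≤ #W := by
        have hsub : {k | k ∈ F j ∧ ∃ r ∈ range (fun i => p i * e i), r * k = x} ⊆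
            (fun i => (p i * e i)⁻¹ * x) '' W := by
          rintro k ⟨hk, r, ⟨i, rfl⟩, hr⟩
          exact ⟨i, ⟨k, hk, hr⟩, by simp only; rw [← hr]; group⟩
        exact (mk_le_mk_of_subset hsub).trans mk_image_le
      have h2 : (W ∩ Ici j).Subsingleton := by
        have haux : ∀ i i', i ∈ W → i' ∈ W → j ≤ i → i' < i → False := by
          rintro i i' ⟨k, hk, hk2⟩ ⟨k', hk', hk2'⟩ hji hii
          apply hqH i
          have : p i * e i = (p i' * e i') * (k' * k⁻¹) := by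
            rw [← mul_assoc, hk2', ← hk2]
            group
          rw [this]
          exact (H i).mul_mem (hqq i i' hii) ((H i).mul_mem (hFH i j hjS hji k' hk')
            ((H i).inv_mem (hFH i j hjS hji k hk)))
        rintro i ⟨hi1, hi2⟩ i' ⟨hi3, hi4⟩
        rcases lt_trichotomy i i' with h | h | h
        · exact (haux i' i hi3 hi1 hi4 h).elim
        · exact h
        · exact (haux i i' hi1 hi3 hi2 h).elim
      have h3 : W ⊆ Iio j ∪ (W ∩ Ici j) := by
        intro i hi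
        rcases lt_or_ge i j with h | h
        · exact Or.inl h
        · exact Or.inr ⟨hi, h⟩
      calc #{k | k ∈ F j ∧ ∃ r ∈ range (fun i => p i * e i), r * k = x} ≤ #W := h1
        _ ≤ #(Iio j ∪ (W ∩ Ici j) : Set I) := mk_le_mk_of_subset h3
        _ ≤ #(Iio j) + #(W ∩ Ici j : Set I) := mk_union_le _ _
        _ ≤ μ j + μ j := by
            refine add_le_add (le_max_right _ _) ?_
            refine le_trans ?_ (le_max_left _ _)
            exact (mk_le_aleph0_iff.mpr h2.countable.to_subtype)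
        _ = μ j := add_eq_self (le_max_left _ _)
  · intro g
    refine ⟨p (e.symm g), ⟨_, rfl⟩, e.symm g, ?_⟩
    simp
  · intro c hc
    by_contra hcon
    push Not at hcon
    have hj : ∀ j : S, ∃ g, #(Iio j.1) < c g := fun j => hcon _ (hI j.1)
    choose γ hγ using hj
    obtain ⟨d, hd, hd2⟩ := hc (range γ) (lt_of_le_of_lt mk_range_le hS)
    obtain ⟨j, hjS, hj2⟩ := hA d hd
    have h1 := hγ ⟨j, hjS⟩
    have h2 := hd2 _ (mem_range_self (⟨j, hjS⟩ : S))
    exact absurd (hj2.trans_lt h1) (not_lt.mpr h2)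

set_option maxHeartbeats 400000

/-- the set of the quotients -/
theorem mk_quot_le {G : Type u} [Group G] {K R X : Set G} {μ : Cardinal.{u}} (hμ : ℵ₀ ≤ μ)
    (h : ∀ x, #{k | k ∈ K ∧ ∃ r ∈ R, r * k = x} ≤ μ) (hX : #X ≤ μ) :
    #{k | k ∈ K ∧ ∃ r ∈ R, r * k ∈ X} ≤ μ := by
  have hsub : {k | k ∈ K ∧ ∃ r ∈ R, r * k ∈ X} ⊆
      ⋃ x : X, {k | k ∈ K ∧ ∃ r ∈ R, r * k = x.1} := by
    rintro k ⟨hk, r, hr, hx⟩
    exact mem_iUnion.mpr ⟨⟨r * k, hx⟩, hk, r, hr, rfl⟩
  have h1 : (⨆ x : X, #{k | k ∈ K ∧ ∃ r ∈ R, r * k = x.1}) ≤ μ := ciSup_le' fun x : X => h x.1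
  have h2 : #X * (⨆ x : X, #{k | k ∈ K ∧ ∃ r ∈ R, r * k = x.1}) ≤ μ * μ := mul_le_mul' hX h1
  exact (mk_le_mk_of_subset hsub).trans ((mk_iUnion_le _).trans (h2.trans (mul_eq_self hμ).le))

/-- there are asymptotically disjoint sets without disjoint asymptotic neighbourhoods -/
theorem main {G : Type u} [Group G] [Infinite G] (hsing : ¬ (#G).IsRegular) :
    ∃ P Q : Set G,
      (∀ A B : Set G, #A < #G → #B < #G → #↥((P * A) ∩ (Q * B)) < #G) ∧
      ∀ U V : Set G, (∀ A : Set G, #A < #G → #↥((P * A) \ U) < #G) →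
        (∀ A : Set G, #A < #G → #↥((Q * A) \ V) < #G) → #↥(U ∩ V) < #G → False := by
  classical
  have hinf : ℵ₀ ≤ #G := aleph0_le_mk G
  have hκ : ℵ₀ < #G := by
    refine lt_of_le_of_ne hinf (fun h => hsing ?_)
    rw [← h]
    exact isRegular_aleph0
  obtain ⟨P, Q, h1, h2, h3, h4⟩ := key hsing
  refine ⟨P, Q, ?_, ?_⟩
  · intro A B hA hB
    have hsub : (P * A) ∩ (Q * B) ⊆ ⋃ x : A × B,
        (fun y => y * x.2.1) '' {y | y ∈ Q ∧ ∃ z ∈ P, z * (x.1.1 * x.2.1⁻¹) = y} := by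
      rintro y ⟨⟨p, hp, a, ha, rfl⟩, q, hq, b, hb, hqb⟩
      refine mem_iUnion.mpr ⟨(⟨a, ha⟩, ⟨b, hb⟩), q, ⟨hq, p, hp, ?_⟩, hqb⟩
      have hqb' : q * b = p * a := hqb
      change p * (a * b⁻¹) = q
      rw [← mul_assoc, ← hqb']
      group
    refine lt_of_le_of_lt (mk_le_mk_of_subset hsub) (lt_of_le_of_lt (mk_iUnion_le _) ?_)
    refine mul_lt_of_lt hκ.le ?_ ?_
    · rw [mk_prod, lift_id, lift_id]
      exact mul_lt_of_lt hκ.le hA hB
    · refine lt_of_le_of_lt (ciSup_le' fun x => ?_) hκ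
      exact mk_le_aleph0_iff.mpr ((h1 _).image _).to_subtype
  · intro U V hU hV hUV
    -- uniform bounds
    have hunif : ∀ (R W : Set G), (∀ A : Set G, #A < #G → #↥((R * A) \ W) < #G) →
        ∃ d < #G, ∀ g : G, #↥((R * {g}) \ W) ≤ d := by
      intro R W hW
      apply h4
      intro A hA
      refine ⟨_, hW A hA, fun g hg => mk_le_mk_of_subset ?_⟩
      exact sdiff_subset_sdiff_left (mul_subset_mul_left (singleton_subset_iff.mpr hg))
    obtain ⟨d1, hd1, hd1'⟩ := hunif P U hU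
    obtain ⟨d2, hd2, hd2'⟩ := hunif Q V hV
    obtain ⟨μ, hνμ, hμ, K, hK, hK1, hK2⟩ := h2 (max (max d1 d2) #↥(U ∩ V))
      (max_lt (max_lt hd1 hd2) hUV)
    have e1 : d1 ≤ μ := (le_max_left _ _).trans ((le_max_left _ _).trans hνμ)
    have e2 : d2 ≤ μ := (le_max_right _ _).trans ((le_max_left _ _).trans hνμ)
    have e3 : #↥(U ∩ V) ≤ μ := (le_max_right _ _).trans hνμ
    obtain ⟨F, hFK, hF⟩ : ∃ F : Set G, F ⊆ K ∧ #F = succ μ := by
      apply le_mk_iff_exists_subset.mp
      rw [hK]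
      exact le_succ _
    -- a good column
    obtain ⟨f, hfK, hf⟩ : ∃ f ∈ K, ∀ f1 ∈ F,
        f ∉ {k | k ∈ K ∧ ∃ r ∈ Q, r * k ∈ (P * {f1}) \ U} := by
      by_contra hcon
      push Not at hcon
      have hsub : K ⊆ ⋃ f1 : F, {k | k ∈ K ∧ ∃ r ∈ Q, r * k ∈ (P * {f1.1}) \ U} := by
        intro k hk
        obtain ⟨f1, hf1, h5⟩ := hcon k hk
        exact mem_iUnion.mpr ⟨⟨f1, hf1⟩, h5⟩
      have h6 : #K ≤ succ μ := by
        have h8 : (⨆ f1 : F, #{k | k ∈ K ∧ ∃ r ∈ Q, r * k ∈ (P * {f1.1}) \ U}) ≤ succ μ := by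
          apply ciSup_le'
          intro f1
          exact (mk_quot_le hμ hK2 ((hd1' f1.1).trans e1)).trans (le_succ μ)
        have h9 : #F * (⨆ f1 : F, #{k | k ∈ K ∧ ∃ r ∈ Q, r * k ∈ (P * {f1.1}) \ U}) ≤
            succ μ * succ μ := mul_le_mul' hF.le h8
        have h10 : succ μ * succ μ = succ μ := mul_eq_self (hμ.trans (le_succ μ))
        exact (mk_le_mk_of_subset hsub).trans ((mk_iUnion_le _).trans (h9.trans h10.le))
      rw [hK] at h6
      exact absurd h6 (not_le.mpr (lt_succ _))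
    have hsub : F ⊆ {k | k ∈ K ∧ ∃ r ∈ P, r * k ∈ (Q * {f}) \ V} ∪
        {k | k ∈ K ∧ ∃ r ∈ P, r * k ∈ U ∩ V} := by
      intro f1 hf1
      obtain ⟨p, hp, hq⟩ := h3 (f1 * f⁻¹)
      have hpq : p * (f1 * f⁻¹) * f = p * f1 := by group
      by_cases h5 : p * f1 ∈ U
      · by_cases h6 : p * f1 ∈ V
        · exact Or.inr ⟨hFK hf1, p, hp, h5, h6⟩
        · refine Or.inl ⟨hFK hf1, p, hp, ?_, h6⟩
          exact ⟨_, hq, f, rfl, hpq⟩
      · exfalso
        refine hf f1 hf1 ⟨hfK, _, hq, ?_, ?_⟩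
        · rw [hpq]
          exact ⟨p, hp, f1, rfl, rfl⟩
        · rw [hpq]
          exact h5
    have h7 : #F ≤ μ := by
      refine (mk_le_mk_of_subset hsub).trans ((mk_union_le _ _).trans ?_)
      refine (add_le_add (mk_quot_le hμ hK1 ((hd2' f).trans e2)) (mk_quot_le hμ hK1 e3)).trans ?_
      exact (add_eq_self hμ).le
    rw [hF] at h7
    exact absurd h7 (not_le.mpr (lt_succ _))

end Q184.Small
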